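import Pool.Agent.H810R3.Tub.Compare
import Pool.Agent.R251.Cmp.Cov

set_option autoImplicit false

/-! Boxes in product position: the geometry and the volume of the union. -/

open MeasureTheory Set Filter Topology ENNReal NNReal Metric

namespace Pool.Agent.R251.Nec

open Pool.Agent.H810R3.Tub

variable {d : ℕ}

theorem norm_fst_le (w : Space d) : ‖w.fst‖ ≤ ‖w‖ := by
  have h := norm_space_sq w
  apply le_of_sq_le_sq _ (norm_nonneg _)
  nlinarith [sq_nonneg w.snd]

theorem abs_snd_le (w : Space d) : |w.snd| ≤ ‖w‖ := by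
  have h := norm_space_sq w
  apply le_of_sq_le_sq _ (norm_nonneg _)
  rw [sq_abs]
  nlinarith [sq_nonneg ‖w.fst‖]

/-- The geometry of a box with its centre at height `0`. -/
theorem geo {N : ℝ} (hN : 1 ≤ N) {ω : Vec d} (hω : ‖ω‖ ≤ 1) {f : Fin d → Space d}
    (hf : Orthonormal ℝ (Fin.cons (nor ω) f : Fin (d + 1) → Space d)) {β : Vec d} {y : Space d}
    (hy : y ∈ Pool.Agent.H810R3.Tub.box N (nor ω) f (WithLp.toLp 2 (β, (0:ℝ)))) :
    |y.snd| ≤ (1 + d) * N ^ 2 ∧ ‖y.fst - β + (2 * y.snd) • ω‖ ≤ 3 * d * N / 2 := by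
  set a : Space d := WithLp.toLp 2 (β, (0:ℝ)) with ha
  set z := y - a with hz
  have hzb : z ∈ Pool.Agent.H810R3.Tub.box N (nor ω) f 0 := by
    unfold Pool.Agent.H810R3.Tub.box at hy ⊢
    rw [Set.mem_ofPred_eq, sub_zero]
    exact hy
  have hz1 : z.fst = y.fst - β := by
    rw [hz, WithLp.sub_fst, ha]
    rfl
  have hz2 : z.snd = y.snd := by rw [hz, WithLp.sub_snd, ha]; simp
  have hzn := box_sub_ball hN hf hzb
  rw [mem_closedBall, dist_zero_right] at hzn
  refine ⟨?_, ?_⟩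
  · rw [← hz2]
    exact (abs_snd_le z).trans hzn
  · set τ : ℝ := inner ℝ (nor ω) z with hτ
    set w := z - τ • nor ω with hw
    have hwn : ‖w‖ ≤ d * N / 2 := box_perp hN hf hy
    have he1 : (nor ω).fst + (2 * (nor ω).snd) • ω = 0 := by
      unfold nor dir
      rw [WithLp.smul_fst, WithLp.smul_snd]
      show (√(1 + ‖-(2 : ℝ) • ω‖ ^ 2))⁻¹ • (-(2 : ℝ) • ω) +
        (2 * ((√(1 + ‖-(2 : ℝ) • ω‖ ^ 2))⁻¹ • (1 : ℝ))) • ω = 0
      rw [smul_eq_mul, smul_smul, ← add_smul]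
      have : (√(1 + ‖-(2 : ℝ) • ω‖ ^ 2))⁻¹ * -2 + 2 * ((√(1 + ‖-(2 : ℝ) • ω‖ ^ 2))⁻¹ * 1) = 0 := by ring
      rw [this, zero_smul]
    have hkey : z.fst + (2 * z.snd) • ω = w.fst + (2 * w.snd) • ω := by
      have e1 : w.fst = z.fst - τ • (nor ω).fst := by rw [hw, WithLp.sub_fst, WithLp.smul_fst]
      have e2 : w.snd = z.snd - τ * (nor ω).snd := by
        rw [hw, WithLp.sub_snd, WithLp.smul_snd, smul_eq_mul]
      rw [e1, e2]
      have e3 : z.fst - τ • (nor ω).fst + (2 * (z.snd - τ * (nor ω).snd)) • ω =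
          z.fst + (2 * z.snd) • ω - τ • ((nor ω).fst + (2 * (nor ω).snd) • ω) := by
        rw [smul_add, smul_smul]
        have : 2 * (z.snd - τ * (nor ω).snd) = 2 * z.snd - τ * (2 * (nor ω).snd) := by ring
        rw [this, sub_smul]
        abel
      rw [e3, he1, smul_zero, sub_zero]
    rw [← hz1, ← hz2, hkey]
    have h1 := norm_fst_le w
    have h2 := abs_snd_le w
    have hw0 := norm_nonneg w
    calc ‖w.fst + (2 * w.snd) • ω‖ ≤ ‖w.fst‖ + ‖(2 * w.snd) • ω‖ := norm_add_le _ _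
      _ ≤ ‖w‖ + 2 * ‖w‖ := by
          refine add_le_add h1 ?_
          rw [norm_smul, Real.norm_eq_abs, abs_mul, abs_two]
          have h3 : |w.snd| * ‖ω‖ ≤ ‖w‖ * 1 := mul_le_mul h2 hω (norm_nonneg _) hw0
          nlinarith
      _ ≤ 3 * d * N / 2 := by linarith

/-- The position of the box with slope `x`. -/
theorem exists_pos (d : ℕ) : ∃ g : ℝ → ℝ, (∀ x, |g x| ≤ 2 * (1 + d)) ∧
    ∀ x, |x| ≤ 1 → ∃ b, Cmp.V b = -x ∧ g x = -((1 + d) * Cmp.A b) := by
  have hA : ∀ b, |Cmp.A b| ≤ 2 := by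
    intro b
    unfold Cmp.A
    have h := tsum_of_norm_bounded (f := fun m : ℕ => Cmp.tau m * Cmp.sg (b m) * (1 / 2 : ℝ) ^ (m + 1))
      (g := fun m : ℕ => 2 * (1 / 2 : ℝ) ^ (m + 1)) (a := 2) (by
        have h1 := Cmp.geo_summable.hasSum.mul_left 2
        rw [Cmp.geo_sum, mul_one] at h1
        exact h1) (by
        intro m
        rw [norm_mul, norm_mul, Real.norm_eq_abs, Real.norm_eq_abs, Cmp.sg_abs, mul_one, norm_pow]
        have := Cmp.tau_abs m
        have h2 : ‖(1/2 : ℝ)‖ = 1/2 := by norm_num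
        rw [h2]
        gcongr)
    rwa [Real.norm_eq_abs] at h
  have hex : ∀ x : ℝ, ∃ b, |x| ≤ 1 → Cmp.V b = -x := by
    intro x
    by_cases hx : |x| ≤ 1
    · obtain ⟨b, hb⟩ := Cmp.V_surj (v := -x) (by rwa [abs_neg])
      exact ⟨b, fun _ => hb⟩
    · exact ⟨fun _ => 0, fun h => absurd h hx⟩
  choose br hbr using hex
  refine ⟨fun x => -((1 + d) * Cmp.A (br x)), ?_, ?_⟩
  · intro x
    rw [abs_neg, abs_mul, abs_of_nonneg (by positivity : (0:ℝ) ≤ 1 + d)]
    have := hA (br x)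
    have hd0 : (0:ℝ) ≤ d := Nat.cast_nonneg d
    nlinarith
  · intro x hx
    exact ⟨br x, hbr x hx, rfl⟩

/-- The set that contains all boxes. -/
def big (d : ℕ) (N : ℝ) : Set (Space d) :=
  {y | |y.snd| ≤ (1 + d) * N ^ 2 ∧ ∀ j, ∃ b, |((1 + d) * N ^ 2)⁻¹ * y.fst j -
    Cmp.f b (2 * (((1 + d) * N ^ 2)⁻¹ * y.snd))| ≤ 2 * (3 / (4 * N))}

theorem big_closed (d : ℕ) (N : ℝ) : IsClosed (big d N) := by
  have e : big d N = {y : Space d | |y.snd| ≤ (1 + d) * N ^ 2} ∩ ⋂ j, {y : Space d |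
      ∃ b, |((1 + d) * N ^ 2)⁻¹ * y.fst j -
        Cmp.f b (2 * (((1 + d) * N ^ 2)⁻¹ * y.snd))| ≤ 2 * (3 / (4 * N))} := by
    ext y
    simp [big]
  rw [e]
  have hs : Continuous (fun y : Space d => y.snd) := by fun_prop
  have hf : Continuous (fun y : Space d => y.fst) := by fun_prop
  apply IsClosed.inter
  · exact isClosed_le hs.abs continuous_const
  · apply isClosed_iInter
    intro j
    have hc : Continuous (fun y : Space d => ((2 : ℝ) * (((1 + d) * N ^ 2)⁻¹ * y.snd),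
        ((1 + d) * N ^ 2)⁻¹ * y.fst j)) := by
      refine (continuous_const.mul (continuous_const.mul hs)).prodMk (continuous_const.mul ?_)
      have h2 : Continuous (fun v : Vec d => v j) := by fun_prop
      exact h2.comp hf
    exact (Cmp.slice_closed (2 * (3 / (4 * N)))).preimage hc

theorem big_vol (d : ℕ) {N : ℝ} (hN : 2 ≤ N) :
    volume (big d N) ≤ ENNReal.ofReal (2 * 1000 ^ d * (1 + d) ^ (d + 1) * N ^ (2 * d + 2) /
      Real.log N ^ d) := by
  have hN0 : 0 < N := by linarith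
  have hL0 : 0 < Real.log N := Real.log_pos (by linarith)
  set S : ℝ := (1 + d) * N ^ 2 with hS
  have hS0 : 0 < S := by positivity
  set δ : ℝ := 3 / (4 * N) with hδ
  have hδ0 : 0 < δ := by positivity
  have hδ1 : δ < 1 := by
    rw [hδ, div_lt_one (by positivity)]
    linarith
  have hlog : Real.log N ≤ Real.log (1 / δ) := by
    apply Real.log_le_log hN0
    rw [hδ, one_div_div, le_div_iff₀ (by norm_num)]
    linarith
  have hslice : ∀ t : ℝ, |t| ≤ S →
      volume {x : ℝ | ∃ b, |S⁻¹ * x - Cmp.f b (2 * (S⁻¹ * t))| ≤ 2 * δ} ≤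
        ENNReal.ofReal (S * (1000 / Real.log N)) := by
    intro t ht
    have h1 : {x : ℝ | ∃ b, |S⁻¹ * x - Cmp.f b (2 * (S⁻¹ * t))| ≤ 2 * δ} =
        (S⁻¹ * ·) ⁻¹' {x : ℝ | ∃ b, |x - Cmp.f b (2 * (S⁻¹ * t))| ≤ 2 * δ} := rfl
    rw [h1, Real.volume_preimage_mul_left (inv_ne_zero hS0.ne'), inv_inv, abs_of_pos hS0,
      ENNReal.ofReal_mul hS0.le]
    gcongr
    refine (Cmp.slice_small hδ0 hδ1 ?_).trans ?_
    · rw [abs_mul, abs_mul, abs_two, abs_of_pos (inv_pos.2 hS0)]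
      have : S⁻¹ * |t| ≤ 1 := by
        rw [inv_mul_le_iff₀ hS0]; linarith
      linarith
    · apply ENNReal.ofReal_le_ofReal
      exact div_le_div_of_nonneg_left (by norm_num) hL0 hlog
  have hmp := WithLp.volume_preserving_toLp (Vec d) ℝ
  rw [← hmp.measure_preimage (big_closed d N).measurableSet.nullMeasurableSet]
  have hm : MeasurableSet ((WithLp.toLp 2) ⁻¹' big d N : Set (Vec d × ℝ)) :=
    hmp.measurable (big_closed d N).measurableSet
  rw [Measure.volume_eq_prod, Measure.prod_apply_symm hm]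
  calc ∫⁻ t : ℝ, volume ((fun x : Vec d => (x, t)) ⁻¹' ((WithLp.toLp 2) ⁻¹' big d N))
      ≤ ∫⁻ t : ℝ, (Icc (-S) S).indicator (fun _ => ENNReal.ofReal (S * (1000 / Real.log N)) ^ d) t := by
        apply lintegral_mono
        intro t
        simp only
        by_cases ht : t ∈ Icc (-S) S
        · rw [indicator_of_mem ht]
          have hT : MeasurableSet ((fun x : Vec d => (x, t)) ⁻¹' ((WithLp.toLp 2) ⁻¹' big d N)) :=
            (measurable_prodMk_right (y := t)) hm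
          have h3 := (PiLp.volume_preserving_toLp (Fin d)).measure_preimage hT.nullMeasurableSet
          rw [← h3]
          refine (measure_mono (t := Set.pi univ (fun _ : Fin d =>
            {x : ℝ | ∃ b, |S⁻¹ * x - Cmp.f b (2 * (S⁻¹ * t))| ≤ 2 * δ})) ?_).trans ?_
          · intro x hx j _
            exact hx.2 j
          · rw [volume_pi_pi]
            simp only [Finset.prod_const, Finset.card_univ, Fintype.card_fin]
            gcongr
            exact hslice t (abs_le.2 ht)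
        · rw [indicator_of_notMem ht]
          have h6 : (fun x : Vec d => (x, t)) ⁻¹' ((WithLp.toLp 2) ⁻¹' big d N) = ∅ := by
            rw [eq_empty_iff_forall_notMem]
            intro x hx
            exact ht (abs_le.1 hx.1)
          rw [h6]
          simp
    _ = ENNReal.ofReal (S * (1000 / Real.log N)) ^ d * ENNReal.ofReal (2 * S) := by
        rw [lintegral_indicator measurableSet_Icc, lintegral_const, Measure.restrict_apply_univ,
          Real.volume_Icc]
        congr 2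
        ring
    _ = _ := by
        rw [← ENNReal.ofReal_pow (by positivity), ← ENNReal.ofReal_mul (by positivity)]
        congr 1
        rw [hS]
        rw [mul_pow, div_pow, mul_pow, ← pow_mul]
        field_simp
        ring

/-- All boxes are in the big set. -/
theorem box_sub_big {N : ℝ} (hN : 2 ≤ N) {g : ℝ → ℝ}
    (hg : ∀ x, |x| ≤ 1 → ∃ b, Cmp.V b = -x ∧ g x = -((1 + d) * Cmp.A b))
    {ω : Vec d} (hω : ‖ω‖ ≤ 1) {f : Fin d → Space d}
    (hf : Orthonormal ℝ (Fin.cons (nor ω) f : Fin (d + 1) → Space d)) :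
    Pool.Agent.H810R3.Tub.box N (nor ω) f
      (WithLp.toLp 2 (WithLp.toLp 2 (fun j => N ^ 2 * g (ω j)), (0:ℝ))) ⊆ big d N := by
  intro y hy
  have hN0 : 0 < N := by linarith
  have hd0 : (0:ℝ) ≤ d := Nat.cast_nonneg d
  obtain ⟨h1, h2⟩ := geo (by linarith) hω hf hy
  refine ⟨h1, ?_⟩
  intro j
  have hωj : |ω j| ≤ 1 := by
    have := PiLp.norm_apply_le ω j
    rw [Real.norm_eq_abs] at this
    exact this.trans hω
  obtain ⟨b, hb1, hb2⟩ := hg (ω j) hωj
  refine ⟨b, ?_⟩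
  have h3 : |y.fst j - N ^ 2 * g (ω j) + 2 * y.snd * ω j| ≤ 3 * d * N / 2 := by
    have := PiLp.norm_apply_le (y.fst - (WithLp.toLp 2 (fun j => N ^ 2 * g (ω j)) : Vec d) +
      (2 * y.snd) • ω) j
    rw [Real.norm_eq_abs] at this
    exact this.trans h2
  set S : ℝ := (1 + d) * N ^ 2 with hS
  have hS0 : 0 < S := by positivity
  have e : S⁻¹ * y.fst j - Cmp.f b (2 * (S⁻¹ * y.snd)) =
      S⁻¹ * (y.fst j - N ^ 2 * g (ω j) + 2 * y.snd * ω j) := by
    unfold Cmp.f
    rw [hb1, hb2]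
    have : S⁻¹ * (N ^ 2 * -((1 + d) * Cmp.A b)) = -Cmp.A b := by
      rw [hS]
      field_simp
    rw [mul_add, mul_sub, this]
    ring
  rw [e, abs_mul, abs_of_pos (inv_pos.2 hS0), inv_mul_le_iff₀ hS0]
  refine h3.trans ?_
  have e2 : S * (2 * (3 / (4 * N))) = 3 * (1 + d) * N / 2 := by
    rw [hS]
    field_simp
    ring
  rw [e2]
  nlinarith

end Pool.Agent.R251.Nec
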