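import Pool.Agent.H810R3.Tub.Compare

set_option autoImplicit false

/-! Caps with centres in a grid. -/

open MeasureTheory Set Filter Topology Metric

namespace Pool.Agent.R251.Nec

open Pool.Agent.H810R3.Tub

variable {d : ℕ}

/-- A unit vector is the first vector of an orthonormal frame. -/
theorem exists_frame (e : Space d) (he : ‖e‖ = 1) :
    ∃ f : Fin d → Space d, Orthonormal ℝ (Fin.cons e f : Fin (d + 1) → Space d) := by
  have h1 : Orthonormal ℝ (({0} : Set (Fin (d + 1))).domRestrict (fun _ => e)) := by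
    constructor
    · intro i
      exact he
    · intro i j hij
      exact absurd (Subsingleton.elim i j) hij
  obtain ⟨b, hb⟩ := h1.exists_orthonormalBasis_extension_of_card_eq (ι := Fin (d + 1))
    (by rw [finrank_space, Fintype.card_fin])
  refine ⟨fun j => b j.succ, ?_⟩
  have h2 : (Fin.cons e (fun j => b j.succ) : Fin (d + 1) → Space d) = b := by
    funext i
    refine Fin.cases ?_ (fun j => ?_) i
    · rw [Fin.cons_zero]
      exact (hb 0 rfl).symm
    · rw [Fin.cons_succ]
  rw [h2]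
  exact b.orthonormal

/-- The caps with centres in a grid. -/
theorem grid (hd : 1 ≤ d) {σ : ℝ} (hσ : 0 < σ) : ∃ κ : ℝ, 0 < κ ∧ ∀ N : ℝ, 1 ≤ N →
    ∃ (ι : Type) (_ : Fintype ι) (ω : ι → Vec d) (f : ι → Fin d → Space d),
      (∀ i, ‖ω i‖ ≤ 1) ∧ (∀ i j, i ≠ j → σ / N ≤ ‖ω i - ω j‖) ∧
      κ * N ^ d ≤ (Fintype.card ι : ℝ) ∧
      (∀ i, Orthonormal ℝ (Fin.cons (nor (ω i)) (f i) : Fin (d + 1) → Space d)) ∧
      ∀ i i' j, |ω i j - ω i' j| ≤ σ / N → ω i j = ω i' j := by
  have hd0 : (0:ℝ) < d := by exact_mod_cast hd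
  have hd1 : (1:ℝ) ≤ d := by exact_mod_cast hd
  refine ⟨(1 / (2 * σ * d)) ^ d, by positivity, ?_⟩
  intro N hN
  have hN0 : 0 < N := by linarith
  set x : ℝ := N / (2 * σ * d) with hx
  have hx0 : 0 < x := by positivity
  set m : ℕ := ⌊x⌋₊ + 1 with hm
  have hmx : x ≤ m := by
    rw [hm]
    push_cast
    exact (Nat.lt_floor_add_one x).le
  set ω : (Fin d → Fin m) → Vec d := fun k => WithLp.toLp 2 (fun j => 2 * σ / N * ((k j : ℕ) : ℝ)) with hω
  have hω1 : ∀ k j, ω k j = 2 * σ / N * ((k j : ℕ) : ℝ) := fun k j => rfl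
  have hgrid : ∀ k k' j, |ω k j - ω k' j| ≤ σ / N → ω k j = ω k' j := by
    intro k k' j h
    rw [hω1, hω1, ← mul_sub, abs_mul, abs_of_pos (by positivity)] at h
    have h1 : |((k j : ℕ) : ℝ) - ((k' j : ℕ) : ℝ)| < 1 := by
      by_contra hc
      push Not at hc
      have h2 : 2 * σ / N * 1 ≤ 2 * σ / N * |((k j : ℕ) : ℝ) - ((k' j : ℕ) : ℝ)| :=
        mul_le_mul_of_nonneg_left hc (by positivity)
      have h3 : 2 * σ / N = 2 * (σ / N) := by ring
      have h4 : 0 < σ / N := by positivity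
      linarith
    have h2 : (k j : ℕ) = (k' j : ℕ) := by
      have h3 : |((k j : ℕ) : ℤ) - ((k' j : ℕ) : ℤ)| < 1 := by
        have : ((|((k j : ℕ) : ℤ) - ((k' j : ℕ) : ℤ)| : ℤ) : ℝ) < 1 := by
          push_cast
          exact h1
        exact_mod_cast this
      rw [Int.abs_lt_one_iff] at h3
      omega
    rw [hω1, hω1, h2]
  have hinj : Function.Injective ω := by
    intro k k' h
    funext j
    have h1 : ω k j = ω k' j := by rw [h]
    rw [hω1, hω1] at h1
    have h2 : ((k j : ℕ) : ℝ) = ((k' j : ℕ) : ℝ) :=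
      mul_left_cancel₀ (by positivity) h1
    exact Fin.ext (by exact_mod_cast h2)
  have hframe : ∀ k, ∃ f : Fin d → Space d,
      Orthonormal ℝ (Fin.cons (nor (ω k)) f : Fin (d + 1) → Space d) :=
    fun k => exists_frame _ (norm_dir _)
  choose f hf using hframe
  refine ⟨Fin d → Fin m, inferInstance, ω, f, ?_, ?_, ?_, hf, hgrid⟩
  · intro k
    have h1 : ∀ j, |ω k j| ≤ 1 / d := by
      intro j
      rw [hω1, abs_of_nonneg (by positivity)]
      have h2 : ((k j : ℕ) : ℝ) ≤ x := by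
        have h3 : (k j : ℕ) ≤ ⌊x⌋₊ := by
          have := (k j).2
          omega
        have h4 : ((k j : ℕ) : ℝ) ≤ (⌊x⌋₊ : ℝ) := by exact_mod_cast h3
        exact h4.trans (Nat.floor_le hx0.le)
      calc 2 * σ / N * ((k j : ℕ) : ℝ) ≤ 2 * σ / N * x := by gcongr
        _ = 1 / d := by
          rw [hx]
          field_simp
    apply le_of_sq_le_sq _ zero_le_one
    rw [EuclideanSpace.real_norm_sq_eq]
    calc ∑ j, (ω k j) ^ 2 ≤ ∑ _j : Fin d, (1 / (d:ℝ)) ^ 2 := by
          refine Finset.sum_le_sum fun j _ => ?_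
          rw [← sq_abs]
          exact pow_le_pow_left₀ (abs_nonneg _) (h1 j) 2
      _ = 1 / d := by
          rw [Finset.sum_const, Finset.card_univ, Fintype.card_fin, nsmul_eq_mul]
          field_simp
      _ ≤ 1 ^ 2 := by
          rw [one_pow, div_le_one hd0]
          exact hd1
  · intro k k' hkk
    by_contra hc
    push Not at hc
    apply hkk
    apply hinj
    ext j
    apply hgrid
    have h1 := PiLp.norm_apply_le (ω k - ω k') j
    rw [Real.norm_eq_abs] at h1
    exact h1.trans hc.le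
  · rw [Fintype.card_fun, Fintype.card_fin, Fintype.card_fin]
    push_cast
    rw [← mul_pow]
    apply pow_le_pow_left₀ (by positivity)
    refine le_trans (le_of_eq ?_) hmx
    rw [hx]
    ring

end Pool.Agent.R251.Nec
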