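import Pool.Agent.R251.Nec.Geo

set_option autoImplicit false

/-! The centred family: upper bound for the moments of order `p < n/(n-1)`. -/

open MeasureTheory Set Filter Topology ENNReal NNReal Metric

namespace Pool.Agent.R251.Nec

open Pool.Agent.H810R3.Tub

variable {d : ℕ}

/-- Packing of separated points in a ball. -/
theorem pack {ι : Type} [Fintype ι] {s ρ : ℝ} (hs : 0 < s) (hρ : 0 ≤ ρ) (ω : ι → Vec d)
    (hsep : ∀ i j, i ≠ j → s ≤ ‖ω i - ω j‖) (c : Vec d) (I : Finset ι)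
    (hI : ∀ i ∈ I, ‖ω i - c‖ ≤ ρ) : (I.card : ℝ) ≤ (2 * ρ / s + 2) ^ d := by
  classical
  have hinj : Function.Injective ω := by
    intro i j hij
    by_contra hne
    have := hsep i j hne
    rw [hij, sub_self, norm_zero] at this
    linarith
  have hcard : (I.image ω).card = I.card := Finset.card_image_of_injective _ hinj
  have h1 := Cmp.sep_card (n := d) (K := closedBall c ρ) hs (I.image ω) (by
      intro x hx
      obtain ⟨i, hi, rfl⟩ := Finset.mem_image.1 hx
      rw [mem_closedBall, dist_eq_norm]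
      exact hI i hi) (by
      intro x hx y hy hxy
      obtain ⟨i, hi, rfl⟩ := Finset.mem_image.1 hx
      obtain ⟨j, hj, rfl⟩ := Finset.mem_image.1 hy
      rw [dist_eq_norm]
      exact hsep i j (fun h => hxy (by rw [h])))
  have h2 : volume (thickening s (closedBall c ρ)) ≤
      ENNReal.ofReal ((ρ + s) ^ d) * volume (ball (0 : Vec d) 1) := by
    have h3 : thickening s (closedBall c ρ) ⊆ closedBall c (ρ + s) := by
      intro y hy
      rw [mem_thickening_iff] at hy
      obtain ⟨z, hz, hyz⟩ := hy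
      rw [mem_closedBall] at hz ⊢
      linarith [dist_triangle y z c]
    refine (measure_mono h3).trans (le_of_eq ?_)
    rw [Measure.addHaar_closedBall _ _ (by positivity), finrank_euclideanSpace_fin]
  rw [hcard] at h1
  have h4 := h1.trans h2
  set v := (volume (ball (0 : Vec d) 1)).toReal with hv
  have hvt : volume (ball (0 : Vec d) 1) ≠ ∞ := measure_ball_lt_top.ne
  have hv0 : 0 < v := ENNReal.toReal_pos (measure_ball_pos volume _ one_pos).ne' hvt
  have hve : volume (ball (0 : Vec d) 1) = ENNReal.ofReal v := by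
    rw [hv, ENNReal.ofReal_toReal hvt]
  have hn : (0:ℝ) ≤ (I.card : ℝ) := Nat.cast_nonneg _
  have hs2 : (0:ℝ) ≤ (s / 2) ^ d := by positivity
  have hrs : (0:ℝ) ≤ (ρ + s) ^ d := by positivity
  have e1 : (I.card : ℝ≥0∞) * (ENNReal.ofReal ((s / 2) ^ d) * volume (ball (0 : Vec d) 1)) =
      ENNReal.ofReal ((I.card : ℝ) * ((s / 2) ^ d * v)) := by
    rw [hve, ENNReal.ofReal_mul hn, ENNReal.ofReal_mul hs2, ENNReal.ofReal_natCast]
  have e2 : ENNReal.ofReal ((ρ + s) ^ d) * volume (ball (0 : Vec d) 1) =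
      ENNReal.ofReal ((ρ + s) ^ d * v) := by
    rw [hve, ENNReal.ofReal_mul hrs]
  have h4' : ENNReal.ofReal ((I.card : ℝ) * ((s / 2) ^ d * v)) ≤ ENNReal.ofReal ((ρ + s) ^ d * v) := by
    rw [← e1, ← e2]
    exact h4
  rw [ENNReal.ofReal_le_ofReal_iff (mul_nonneg hrs hv0.le)] at h4'
  have h5 : (I.card : ℝ) * (s / 2) ^ d ≤ (ρ + s) ^ d := by
    have : (I.card : ℝ) * (s / 2) ^ d * v ≤ (ρ + s) ^ d * v := by
      calc _ = (I.card : ℝ) * ((s / 2) ^ d * v) := by ring
        _ ≤ _ := h4'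
    exact le_of_mul_le_mul_right this hv0
  have h6 : (ρ + s) ^ d = (2 * ρ / s + 2) ^ d * (s / 2) ^ d := by
    rw [← mul_pow]
    congr 1
    field_simp
  rw [h6] at h5
  exact le_of_mul_le_mul_right h5 (by positivity)

/-- The integral of `|t|^(-r)`. -/
theorem int_abs {S r : ℝ} (hS : 0 < S) (hr : r < 1) :
    ∫⁻ t in Icc (-S) S, ENNReal.ofReal (|t| ^ (-r)) ≤ ENNReal.ofReal (2 * (S ^ (1 - r) / (1 - r))) := by
  have h1r : 0 < 1 - r := by linarith
  have hpos : ∫⁻ t in Ioc 0 S, ENNReal.ofReal (|t| ^ (-r)) = ENNReal.ofReal (S ^ (1 - r) / (1 - r)) := by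
    have hint : Integrable (fun t : ℝ => t ^ (-r)) (volume.restrict (Ioc 0 S)) :=
      (intervalIntegral.intervalIntegrable_rpow' (a := 0) (b := S) (by linarith : -1 < -r)).1
    have h1 : ∫⁻ t in Ioc 0 S, ENNReal.ofReal (|t| ^ (-r)) = ∫⁻ t in Ioc 0 S, ENNReal.ofReal (t ^ (-r)) := by
      refine setLIntegral_congr_fun measurableSet_Ioc fun t ht => ?_
      rw [abs_of_pos ht.1]
    rw [h1, ← ofReal_integral_eq_lintegral_ofReal hint]
    · congr 1
      rw [← intervalIntegral.integral_of_le hS.le, integral_rpow (Or.inl (by linarith))]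
      have e : -r + 1 = 1 - r := by ring
      rw [e, Real.zero_rpow h1r.ne', sub_zero]
    · rw [Filter.EventuallyLE, ae_restrict_iff' measurableSet_Ioc]
      filter_upwards with t ht
      exact Real.rpow_nonneg ht.1.le _
  have hneg : ∫⁻ t in Ico (-S) 0, ENNReal.ofReal (|t| ^ (-r)) = ENNReal.ofReal (S ^ (1 - r) / (1 - r)) := by
    rw [← hpos]
    have h2 := (Measure.measurePreserving_neg (volume : Measure ℝ)).setLIntegral_comp_preimage_emb
      (MeasurableEquiv.neg ℝ).measurableEmbedding (fun t => ENNReal.ofReal (|t| ^ (-r))) (Ioc 0 S)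
    have h3 : Neg.neg ⁻¹' Ioc 0 S = Ico (-S) 0 := by
      ext t
      simp only [mem_preimage, mem_Ioc, mem_Ico]
      constructor
      · rintro ⟨h4, h5⟩; constructor <;> linarith
      · rintro ⟨h4, h5⟩; constructor <;> linarith
    rw [← h2, h3]
    refine lintegral_congr fun t => ?_
    rw [abs_neg]
  have hsub : Icc (-S) S ⊆ (Ico (-S) 0 ∪ Ioc 0 S) ∪ {0} := by
    intro t ht
    rcases lt_trichotomy t 0 with h | h | h
    · exact Or.inl (Or.inl ⟨ht.1, h⟩)
    · exact Or.inr h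
    · exact Or.inl (Or.inr ⟨h, ht.2⟩)
  calc ∫⁻ t in Icc (-S) S, ENNReal.ofReal (|t| ^ (-r))
      ≤ ∫⁻ t in (Ico (-S) 0 ∪ Ioc 0 S) ∪ {0}, ENNReal.ofReal (|t| ^ (-r)) :=
        lintegral_mono_set hsub
    _ ≤ (∫⁻ t in (Ico (-S) 0 ∪ Ioc 0 S), ENNReal.ofReal (|t| ^ (-r))) +
        (∫⁻ t in {0}, ENNReal.ofReal (|t| ^ (-r))) := lintegral_union_le _ _ _
    _ ≤ ((∫⁻ t in Ico (-S) 0, ENNReal.ofReal (|t| ^ (-r))) +
        (∫⁻ t in Ioc 0 S, ENNReal.ofReal (|t| ^ (-r)))) + 0 := by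
        apply add_le_add (lintegral_union_le _ _ _)
        rw [Measure.restrict_zero_set (by simp), lintegral_zero_measure]
    _ = _ := by
        rw [add_zero, hneg, hpos, ← ENNReal.ofReal_add (by positivity) (by positivity)]
        congr 1
        ring

theorem zero_eq : (WithLp.toLp 2 ((0 : Vec d), (0:ℝ)) : Space d) = 0 := rfl

/-- Pointwise bound for the centred family. -/
theorem Fb_zero_le {ι : Type} [Fintype ι] {σ N : ℝ} (hσ : 0 < σ) (hN : 1 ≤ N) {ω : ι → Vec d}
    {f : ι → Fin d → Space d} (hω : ∀ i, ‖ω i‖ ≤ 1) (hsep : ∀ i j, i ≠ j → σ / N ≤ ‖ω i - ω j‖)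
    (hf : ∀ i, Orthonormal ℝ (Fin.cons (nor (ω i)) (f i) : Fin (d + 1) → Space d)) {x : Vec d} {t : ℝ}
    (ht : t ≠ 0) (htS : |t| ≤ (1 + d) * N ^ 2) :
    Fb N ω f (fun _ => 0) (WithLp.toLp 2 (x, t)) ≤
      ENNReal.ofReal (((3 * d / (2 * σ) + 2 * (1 + d)) * N ^ 2 * |t|⁻¹) ^ d) := by
  classical
  have hN0 : 0 < N := by linarith
  have ht0 : 0 < |t| := abs_pos.2 ht
  set I : Finset ι := Finset.univ.filter (fun i => (WithLp.toLp 2 (x, t) : Space d) ∈
    Pool.Agent.H810R3.Tub.box N (nor (ω i)) (f i) 0) with hI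
  have h1 : Fb N ω f (fun _ => 0) (WithLp.toLp 2 (x, t)) = (I.card : ℝ≥0∞) := by
    unfold Fb
    rw [hI, Finset.card_filter]
    push_cast
    refine Finset.sum_congr rfl fun i _ => ?_
    by_cases hm : (WithLp.toLp 2 (x, t) : Space d) ∈ Pool.Agent.H810R3.Tub.box N (nor (ω i)) (f i) 0
    · rw [indicator_of_mem hm, if_pos hm]
    · rw [indicator_of_notMem hm, if_neg hm]
  have h2 : (I.card : ℝ) ≤ (2 * (3 * d * N / (4 * |t|)) / (σ / N) + 2) ^ d := by
    apply pack (by positivity) (by positivity) ω hsep (-((2 * t)⁻¹ • x))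
    intro i hi
    have hi' := (Finset.mem_filter.1 hi).2
    rw [← zero_eq] at hi'
    obtain ⟨-, h3⟩ := geo hN (hω i) (hf i) hi'
    have h4 : ‖x + (2 * t) • ω i‖ ≤ 3 * d * N / 2 := by
      have e : (WithLp.toLp 2 (x, t) : Space d).fst - 0 + (2 * (WithLp.toLp 2 (x, t) : Space d).snd) • ω i =
          x + (2 * t) • ω i := by rw [sub_zero]; rfl
      rw [← e]
      exact h3
    have e2 : ω i - -((2 * t)⁻¹ • x) = (2 * t)⁻¹ • (x + (2 * t) • ω i) := by
      rw [smul_add, smul_smul, inv_mul_cancel₀ (by simpa using ht), one_smul, sub_neg_eq_add, add_comm]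
    rw [e2, norm_smul, norm_inv, Real.norm_eq_abs, abs_mul, abs_two, inv_mul_le_iff₀ (by positivity)]
    refine h4.trans (le_of_eq ?_)
    field_simp
    ring
  rw [h1, ← ENNReal.ofReal_natCast]
  apply ENNReal.ofReal_le_ofReal
  refine h2.trans ?_
  apply pow_le_pow_left₀ (by positivity)
  have h3 : (2:ℝ) ≤ 2 * (1 + d) * N ^ 2 * |t|⁻¹ := by
    have : 1 ≤ (1 + d) * N ^ 2 * |t|⁻¹ := by
      rw [← div_eq_mul_inv, one_le_div ht0]
      exact htS
    linarith
  have h4 : 2 * (3 * d * N / (4 * |t|)) / (σ / N) = 3 * d / (2 * σ) * N ^ 2 * |t|⁻¹ := by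
    field_simp
    ring
  rw [h4]
  nlinarith

theorem Fb_zero_out {ι : Type} [Fintype ι] {N : ℝ} (hN : 1 ≤ N) {ω : ι → Vec d}
    {f : ι → Fin d → Space d} (hω : ∀ i, ‖ω i‖ ≤ 1)
    (hf : ∀ i, Orthonormal ℝ (Fin.cons (nor (ω i)) (f i) : Fin (d + 1) → Space d)) {x : Vec d} {t : ℝ}
    (ht : ¬ |t| ≤ (1 + d) * N ^ 2) :
    Fb N ω f (fun _ => 0) (WithLp.toLp 2 (x, t)) = 0 := by
  unfold Fb
  apply Finset.sum_eq_zero
  intro i _
  apply indicator_of_notMem
  intro hm
  rw [← zero_eq] at hm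
  exact ht (geo hN (hω i) (hf i) hm).1

theorem Fb_zero_int {ι : Type} [Fintype ι] {N : ℝ} (hN : 1 ≤ N) {ω : ι → Vec d}
    {f : ι → Fin d → Space d} (hω : ∀ i, ‖ω i‖ ≤ 1)
    (hf : ∀ i, Orthonormal ℝ (Fin.cons (nor (ω i)) (f i) : Fin (d + 1) → Space d)) (t : ℝ) :
    ∫⁻ x : Vec d, Fb N ω f (fun _ => 0) (WithLp.toLp 2 (x, t)) ≤
      ENNReal.ofReal ((Fintype.card ι : ℝ) * ((3 * d * N / 2) ^ d *
        (volume (ball (0 : Vec d) 1)).toReal)) := by
  set v := (volume (ball (0 : Vec d) 1)).toReal with hv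
  have hvt : volume (ball (0 : Vec d) 1) ≠ ∞ := measure_ball_lt_top.ne
  have hve : volume (ball (0 : Vec d) 1) = ENNReal.ofReal v := by
    rw [hv, ENNReal.ofReal_toReal hvt]
  have hN0 : 0 < N := by linarith
  calc ∫⁻ x : Vec d, Fb N ω f (fun _ => 0) (WithLp.toLp 2 (x, t))
      ≤ ∫⁻ x : Vec d, ∑ i, (closedBall (-((2 * t) • ω i)) (3 * d * N / 2)).indicator
          (fun _ => (1 : ℝ≥0∞)) x := by
        apply lintegral_mono
        intro x
        unfold Fb
        refine Finset.sum_le_sum fun i _ => ?_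
        by_cases hm : (WithLp.toLp 2 (x, t) : Space d) ∈ Pool.Agent.H810R3.Tub.box N (nor (ω i)) (f i) 0
        · have h3 : x ∈ closedBall (-((2 * t) • ω i)) (3 * d * N / 2) := by
            have hm' := hm
            rw [← zero_eq] at hm'
            have h4 := (geo hN (hω i) (hf i) hm').2
            rw [mem_closedBall, dist_eq_norm, sub_neg_eq_add]
            have e : (WithLp.toLp 2 (x, t) : Space d).fst - 0 +
                (2 * (WithLp.toLp 2 (x, t) : Space d).snd) • ω i = x + (2 * t) • ω i := by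
              rw [sub_zero]
              rfl
            rw [← e]
            exact h4
          rw [indicator_of_mem hm, indicator_of_mem h3]
        · rw [indicator_of_notMem hm]
          exact zero_le
    _ = ∑ i : ι, ENNReal.ofReal ((3 * d * N / 2) ^ d * v) := by
        rw [lintegral_finsetSum _ (fun i _ => measurable_const.indicator measurableSet_closedBall)]
        refine Finset.sum_congr rfl fun i _ => ?_
        rw [lintegral_indicator measurableSet_closedBall, setLIntegral_const, one_mul,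
          Measure.addHaar_closedBall _ _ (by positivity), finrank_euclideanSpace_fin, hve,
          ← ENNReal.ofReal_mul (by positivity)]
    _ = _ := by
        rw [Finset.sum_const, Finset.card_univ, nsmul_eq_mul, ENNReal.ofReal_mul (Nat.cast_nonneg _),
          ENNReal.ofReal_natCast]

/-- Upper bound for the centred family. -/
theorem centred (d : ℕ) (hd : 1 ≤ d) {σ : ℝ} (hσ : 0 < σ) {p : ℝ} (hp : 1 ≤ p) (hpd : d * (p - 1) < 1) :
    ∃ D : ℝ, 0 < D ∧ ∀ (N : ℝ), 1 ≤ N → ∀ (ι : Type) [Fintype ι] (ω : ι → Vec d)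
      (f : ι → Fin d → Space d), (∀ i, ‖ω i‖ ≤ 1) → (∀ i j, i ≠ j → σ / N ≤ ‖ω i - ω j‖) →
      (∀ i, Orthonormal ℝ (Fin.cons (nor (ω i)) (f i) : Fin (d + 1) → Space d)) →
      ∫⁻ y, Fb N ω f (fun _ => 0) y ^ p ≤
        ENNReal.ofReal (D * ((Fintype.card ι : ℝ) * N ^ (d + 2))) := by
  set r : ℝ := d * (p - 1) with hr
  have hd0 : (0:ℝ) < d := by exact_mod_cast hd
  have hr0 : 0 ≤ r := mul_nonneg hd0.le (by linarith)
  have h1r : 0 < 1 - r := by linarith
  set v := (volume (ball (0 : Vec d) 1)).toReal with hv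
  have hvt : volume (ball (0 : Vec d) 1) ≠ ∞ := measure_ball_lt_top.ne
  have hv0 : 0 < v := ENNReal.toReal_pos (measure_ball_pos volume _ one_pos).ne' hvt
  set A : ℝ := 3 * d / (2 * σ) + 2 * (1 + d) with hA
  have hA0 : 0 < A := by positivity
  refine ⟨A ^ r * ((3 * d / 2) ^ d * v) * (2 * ((1 + d : ℝ) ^ (1 - r) / (1 - r))), by positivity, ?_⟩
  intro N hN ι _ ω f hω hsep hf
  have hN0 : 0 < N := by linarith
  set S : ℝ := (1 + d) * N ^ 2 with hS
  have hS0 : 0 < S := by positivity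
  have hmp := WithLp.volume_preserving_toLp (Vec d) ℝ
  have hg : Measurable (fun y : Space d => Fb N ω f (fun _ => 0) y ^ p) :=
    (Fb_measurable N ω f _).pow_const _
  have hSf : ∫⁻ y : Space d, Fb N ω f (fun _ => 0) y ^ p =
      ∫⁻ t : ℝ, ∫⁻ x : Vec d, Fb N ω f (fun _ => 0) (WithLp.toLp 2 (x, t)) ^ p := by
    rw [← hmp.lintegral_comp hg]
    have hg2 : Measurable (fun q : Vec d × ℝ => Fb N ω f (fun _ => 0) (WithLp.toLp 2 q) ^ p) :=
      hg.comp hmp.measurable
    rw [Measure.volume_eq_prod, lintegral_prod_symm _ hg2.aemeasurable]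
  rw [hSf]
  set B : ℝ := (Fintype.card ι : ℝ) * ((3 * d * N / 2) ^ d * v) with hB
  have hB0 : 0 ≤ B := by positivity
  have hslice : ∀ t : ℝ, t ≠ 0 → ∫⁻ x : Vec d, Fb N ω f (fun _ => 0) (WithLp.toLp 2 (x, t)) ^ p ≤
      (Icc (-S) S).indicator (fun t => ENNReal.ofReal ((A * N ^ 2) ^ r * B) *
        ENNReal.ofReal (|t| ^ (-r))) t := by
    intro t ht
    by_cases htS : t ∈ Icc (-S) S
    · rw [indicator_of_mem htS]
      have ht0 : 0 < |t| := abs_pos.2 ht
      have hb : ∀ x : Vec d, Fb N ω f (fun _ => 0) (WithLp.toLp 2 (x, t)) ^ p ≤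
          ENNReal.ofReal ((A * N ^ 2) ^ r * |t| ^ (-r)) *
            Fb N ω f (fun _ => 0) (WithLp.toLp 2 (x, t)) := by
        intro x
        have h1 := Fb_zero_le (x := x) hσ hN hω hsep hf ht (abs_le.2 htS)
        have e1 : Fb N ω f (fun _ => 0) (WithLp.toLp 2 (x, t)) ^ p =
            Fb N ω f (fun _ => 0) (WithLp.toLp 2 (x, t)) ^ (p - 1) *
            Fb N ω f (fun _ => 0) (WithLp.toLp 2 (x, t)) := by
          conv_lhs => rw [show p = (p - 1) + 1 by ring]
          rw [ENNReal.rpow_add_of_nonneg _ _ (by linarith) zero_le_one, ENNReal.rpow_one]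
        rw [e1]
        refine mul_le_mul' ?_ le_rfl
        refine (ENNReal.rpow_le_rpow h1 (by linarith)).trans (le_of_eq ?_)
        rw [ENNReal.ofReal_rpow_of_nonneg (by positivity) (by linarith)]
        congr 1
        rw [← Real.rpow_natCast, ← Real.rpow_mul (by positivity), ← hr,
          Real.mul_rpow (by positivity) (by positivity), Real.inv_rpow ht0.le, Real.rpow_neg ht0.le]
      calc ∫⁻ x : Vec d, Fb N ω f (fun _ => 0) (WithLp.toLp 2 (x, t)) ^ p
          ≤ ∫⁻ x : Vec d, ENNReal.ofReal ((A * N ^ 2) ^ r * |t| ^ (-r)) *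
            Fb N ω f (fun _ => 0) (WithLp.toLp 2 (x, t)) := lintegral_mono hb
        _ = ENNReal.ofReal ((A * N ^ 2) ^ r * |t| ^ (-r)) *
            ∫⁻ x : Vec d, Fb N ω f (fun _ => 0) (WithLp.toLp 2 (x, t)) :=
            lintegral_const_mul' _ _ ENNReal.ofReal_ne_top
        _ ≤ ENNReal.ofReal ((A * N ^ 2) ^ r * |t| ^ (-r)) * ENNReal.ofReal B :=
            mul_le_mul' le_rfl (Fb_zero_int hN hω hf t)
        _ = _ := by
            rw [← ENNReal.ofReal_mul (by positivity), ← ENNReal.ofReal_mul (by positivity)]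
            congr 1
            ring
    · rw [indicator_of_notMem htS]
      have h0 : ∀ x : Vec d, Fb N ω f (fun _ => 0) (WithLp.toLp 2 (x, t)) ^ p = 0 := by
        intro x
        rw [Fb_zero_out hN hω hf (fun h => htS (abs_le.1 h)), ENNReal.zero_rpow_of_pos (by linarith)]
      simp only [h0, lintegral_zero, le_refl]
  calc ∫⁻ t : ℝ, ∫⁻ x : Vec d, Fb N ω f (fun _ => 0) (WithLp.toLp 2 (x, t)) ^ p
      ≤ ∫⁻ t : ℝ, (Icc (-S) S).indicator (fun t => ENNReal.ofReal ((A * N ^ 2) ^ r * B) *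
        ENNReal.ofReal (|t| ^ (-r))) t := by
        apply lintegral_mono_ae
        have h0 : ∀ᵐ t : ℝ, t ≠ 0 := by
          rw [ae_iff]
          simp
        filter_upwards [h0] with t ht
        exact hslice t ht
    _ = ENNReal.ofReal ((A * N ^ 2) ^ r * B) * ∫⁻ t in Icc (-S) S, ENNReal.ofReal (|t| ^ (-r)) := by
        rw [lintegral_indicator measurableSet_Icc, lintegral_const_mul' _ _ ENNReal.ofReal_ne_top]
    _ ≤ ENNReal.ofReal ((A * N ^ 2) ^ r * B) * ENNReal.ofReal (2 * (S ^ (1 - r) / (1 - r))) :=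
        mul_le_mul' le_rfl (int_abs hS0 (by linarith))
    _ = _ := by
        rw [← ENNReal.ofReal_mul (by positivity)]
        congr 1
        have e1 : (A * N ^ 2) ^ r = A ^ r * (N ^ 2) ^ r := Real.mul_rpow hA0.le (by positivity)
        have e2 : S ^ (1 - r) = (1 + d : ℝ) ^ (1 - r) * (N ^ 2) ^ (1 - r) :=
          Real.mul_rpow (by positivity) (by positivity)
        have e3 : (N ^ 2 : ℝ) ^ r * (N ^ 2) ^ (1 - r) = N ^ 2 := by
          rw [← Real.rpow_add (by positivity)]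
          rw [show r + (1 - r) = 1 by ring, Real.rpow_one]
        have e4 : (3 * d * N / 2 : ℝ) ^ d = (3 * d / 2) ^ d * N ^ d := by
          rw [← mul_pow]
          congr 1
          ring
        rw [e1, e2, hB, e4]
        calc A ^ r * (N ^ 2) ^ r * ((Fintype.card ι : ℝ) * ((3 * d / 2) ^ d * N ^ d * v)) *
              (2 * ((1 + d : ℝ) ^ (1 - r) * (N ^ 2) ^ (1 - r) / (1 - r)))
            = A ^ r * ((3 * d / 2) ^ d * v) * (2 * ((1 + d : ℝ) ^ (1 - r) / (1 - r))) *
              ((Fintype.card ι : ℝ) * (N ^ d * ((N ^ 2) ^ r * (N ^ 2) ^ (1 - r)))) := by ring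
          _ = _ := by
              rw [e3]
              ring

end Pool.Agent.R251.Nec
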